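import Pool.Agent.Y80.KI.Defs
import Pool.Agent.Y80.KM.Inst
import Pool.Agent.Y815.KM.HFun

/-!
# Project KI (helper80), job KI-FUN (helper275): functoriality
-/

set_option autoImplicit false

open scoped BigOperators TensorProduct

namespace Pool.Agent.Y275.KI

open Pool.Agent.Y80.KM Pool.Agent.Y80.KI Pool.Agent.Y815.KM.HFun

section maps

variable {k A A' : Type*} [Field k] [NonUnitalNonAssocRing A] [Module k A]
  [NonUnitalNonAssocRing A'] [Module k A'] {N : ℕ}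

/-- the linear map -/
def lm (φ : A →ₙₐ[k] A') : A →ₗ[k] A' where
  toFun := φ
  map_add' := map_add φ
  map_smul' c x := map_smul φ c x

theorem lm_mul (φ : A →ₙₐ[k] A') (x y : A) : lm φ (x * y) = lm φ x * lm φ y := map_mul φ x y

/-- the map of `B(A)` -/
noncomputable def bmap (φ : A →ₙₐ[k] A') : BSp k A →ₗ[k] BSp k A' :=
  bLift ((wedge k A').compl₁₂ (lm φ) (lm φ))
    (fun a => by rw [LinearMap.compl₁₂_apply, wedge_self])
    (fun a b c => by
      rw [LinearMap.compl₁₂_apply, LinearMap.compl₁₂_apply, LinearMap.compl₁₂_apply, lm_mul,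
        lm_mul, lm_mul]
      exact wedge_cyc k A' _ _ _)

theorem bmap_wedge (φ : A →ₙₐ[k] A') (a b : A) :
    bmap φ (wedge k A a b) = wedge k A' (lm φ a) (lm φ b) := by
  rw [bmap, bLift_wedge]
  rfl

theorem map_trace (φ : A →ₗ[k] A') (M : Matrix (Fin N) (Fin N) A) :
    (M.map φ).trace = φ M.trace := by
  simp [Matrix.trace]

/-- the map of the Lie algebras -/
noncomputable def tF (T : TitsData k A N) (T' : TitsData k A' N) (φ : A →ₙₐ[k] A') :
    TLie T →ₗ[k] TLie T' where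
  toFun x := TLie.mk T' (x.mat.map (lm φ)) (by rw [map_trace, TLie.trace_mat, map_zero])
    (bmap φ x.b)
  map_add' x y := by
    apply TLie.ext
    · change (x.mat + y.mat).map (lm φ) = x.mat.map (lm φ) + y.mat.map (lm φ)
      ext i j
      simp
    · change bmap φ (x.b + y.b) = bmap φ x.b + bmap φ y.b
      rw [map_add]
  map_smul' c x := by
    apply TLie.ext
    · change (c • x.mat).map (lm φ) = c • x.mat.map (lm φ)
      ext i j
      simp
    · change bmap φ (c • x.b) = c • bmap φ x.b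
      rw [map_smul]

theorem mat_tF (T : TitsData k A N) (T' : TitsData k A' N) (φ : A →ₙₐ[k] A') (x : TLie T) :
    (tF T T' φ x).mat = x.mat.map (lm φ) := rfl

theorem b_tF (T : TitsData k A N) (T' : TitsData k A' N) (φ : A →ₙₐ[k] A') (x : TLie T) :
    (tF T T' φ x).b = bmap φ x.b := rfl

theorem cbr_map (φ : A →ₙₐ[k] A') (M M' : Matrix (Fin N) (Fin N) A) :
    (cbr k M M').map (lm φ) = cbr k (M.map (lm φ)) (M'.map (lm φ)) := by
  have h1 : ∀ M M' : Matrix (Fin N) (Fin N) A,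
      (M * M').map (lm φ) = M.map (lm φ) * M'.map (lm φ) := by
    intro M M'
    ext i j
    simp only [Matrix.map_apply, Matrix.mul_apply, map_sum, lm_mul]
  have h2 : (M * M' - M' * M).map (lm φ) =
      M.map (lm φ) * M'.map (lm φ) - M'.map (lm φ) * M.map (lm φ) := by
    rw [← h1, ← h1]
    ext i j
    simp
  rw [cbr, cbr, ← h2, map_trace]
  ext i j
  by_cases hij : i = j
  · subst hij
    simp
  · simp [Matrix.diagonal_apply_ne _ hij]

theorem Dact_map (T : TitsData k A N) (T' : TitsData k A' N) (φ : A →ₙₐ[k] A')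
    (hφ : ∀ a b x, φ (T.D a b x) = T'.D (φ a) (φ b) (φ x)) (b : BSp k A) (x : A) :
    lm φ (T.Dact b x) = T'.Dact (bmap φ b) (lm φ x) := by
  have h1 : (LinearMap.llcomp k A A A' (lm φ)) ∘ₗ T.Dact =
      (LinearMap.lcomp k A' (lm φ)) ∘ₗ T'.Dact ∘ₗ bmap φ := by
    apply bSp_ext
    intro a b
    refine LinearMap.ext fun x => ?_
    change lm φ (T.Dact (wedge k A a b) x) = T'.Dact (bmap φ (wedge k A a b)) (lm φ x)
    rw [bmap_wedge, TitsData.Dact_wedge, TitsData.Dact_wedge]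
    exact hφ a b x
  exact LinearMap.congr_fun (LinearMap.congr_fun h1 b) x

theorem Bact_map (T : TitsData k A N) (T' : TitsData k A' N) (φ : A →ₙₐ[k] A')
    (hφ : ∀ a b x, φ (T.D a b x) = T'.D (φ a) (φ b) (φ x)) (b c : BSp k A) :
    bmap φ (T.Bact b c) = T'.Bact (bmap φ b) (bmap φ c) := by
  have h1 : bmap φ ∘ₗ T.Bact b = T'.Bact (bmap φ b) ∘ₗ bmap φ := by
    apply bSp_ext
    intro x y
    rw [LinearMap.comp_apply, LinearMap.comp_apply, TitsData.Bact_wedge, map_add, bmap_wedge,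
      bmap_wedge, bmap_wedge, TitsData.Bact_wedge, Dact_map T T' φ hφ, Dact_map T T' φ hφ]
  exact LinearMap.congr_fun h1 c

theorem tw_map (φ : A →ₙₐ[k] A') (M M' : Matrix (Fin N) (Fin N) A) :
    bmap φ (tw k M M') = tw k (M.map (lm φ)) (M'.map (lm φ)) := by
  simp only [tw, map_sum, bmap_wedge, Matrix.map_apply]

theorem tF_glAct (T : TitsData k A N) (T' : TitsData k A' N) (φ : A →ₙₐ[k] A')
    (X : Matrix (Fin N) (Fin N) k) (x : TLie T) :
    tF T T' φ (glAct T X x) = glAct T' X (tF T T' φ x) := by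
  apply TLie.ext
  · rw [mat_tF, mat_glAct, mat_glAct, mat_tF]
    ext i j
    simp only [scomm, Matrix.map_apply, Matrix.of_apply, map_sub, map_sum, map_smul]
  · rw [b_tF, b_glAct, b_glAct, map_zero]

theorem tF_inv (T : TitsData k A N) (T' : TitsData k A' N) (φ : A →ₙₐ[k] A') (ψ : A' →ₙₐ[k] A)
    (hφψ : ∀ a, ψ (φ a) = a) (x : TLie T) : tF T' T ψ (tF T T' φ x) = x := by
  have h0 : ∀ a, lm ψ (lm φ a) = a := hφψ
  apply TLie.ext
  · rw [mat_tF, mat_tF]
    ext i j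
    simp only [Matrix.map_apply, h0]
  · rw [b_tF, b_tF]
    have h1 : bmap ψ ∘ₗ bmap φ = LinearMap.id := by
      apply bSp_ext
      intro a b
      rw [LinearMap.comp_apply, bmap_wedge, bmap_wedge, h0, h0, LinearMap.id_apply]
    exact LinearMap.congr_fun h1 x.b

end maps

theorem tF_lie {k A A' : Type*} [Field k] [CharZero k] [NonUnitalNonAssocRing A] [Module k A]
    [IsScalarTower k A A] [SMulCommClass k A A] [NonUnitalNonAssocRing A'] [Module k A']
    [IsScalarTower k A' A'] [SMulCommClass k A' A'] {N : ℕ} [NeZero N] (T : TitsData k A N)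
    (T' : TitsData k A' N) (hc : T.c = T'.c) (φ : A →ₙₐ[k] A')
    (hφ : ∀ a b x, φ (T.D a b x) = T'.D (φ a) (φ b) (φ x)) (x y : TLie T) :
    tF T T' φ ⁅x, y⁆ = ⁅tF T T' φ x, tF T T' φ y⁆ := by
  have hmap : ∀ (M : Matrix (Fin N) (Fin N) A) (b : BSp k A),
      (M.map (T.Dact b)).map (lm φ) = (M.map (lm φ)).map (T'.Dact (bmap φ b)) := by
    intro M b
    ext i j
    simp only [Matrix.map_apply, Dact_map T T' φ hφ]
  rw [lie_eq, lie_eq]
  apply TLie.ext
  · rw [mat_tF, TLie.mat_br, TLie.mat_br, mat_tF, mat_tF, b_tF, b_tF, ← cbr_map, ← hmap, ← hmap]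
    ext i j
    simp
  · rw [b_tF, TLie.b_br, TLie.b_br, mat_tF, mat_tF, b_tF, b_tF, map_add, map_smul, tw_map,
      Bact_map T T' φ hφ, hc]

theorem tfun {k A A' : Type*} [Field k] [CharZero k] [NonUnitalNonAssocRing A] [Module k A]
    [IsScalarTower k A A] [SMulCommClass k A A] [NonUnitalNonAssocRing A'] [Module k A']
    [IsScalarTower k A' A'] [SMulCommClass k A' A'] {N : ℕ} [NeZero N] (T : TitsData k A N)
    (T' : TitsData k A' N) (hc : T.c = T'.c) (φ : A →ₙₐ[k] A') (ψ : A' →ₙₐ[k] A)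
    (hφψ : ∀ a, ψ (φ a) = a) (hφ : ∀ a b x, φ (T.D a b x) = T'.D (φ a) (φ b) (φ x))
    (hψ : ∀ a b x, ψ (T'.D a b x) = T.D (ψ a) (ψ b) (ψ x)) :
    ∃ (F : TLie T →ₗ[k] TLie T') (G : TLie T' →ₗ[k] TLie T),
      (∀ x y, F ⁅x, y⁆ = ⁅F x, F y⁆) ∧ (∀ x y, G ⁅x, y⁆ = ⁅G x, G y⁆) ∧
      (∀ x, G (F x) = x) ∧
      ∀ (X : Matrix (Fin N) (Fin N) k) x, F (glAct T X x) = glAct T' X (F x) :=
  ⟨tF T T' φ, tF T' T ψ, tF_lie T T' hc φ hφ, tF_lie T' T hc.symm ψ hψ, tF_inv T T' φ ψ hφψ,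
    tF_glAct T T' φ⟩

theorem mult_mono {k L L' : Type*} [Field k] [LieRing L] [LieAlgebra k L] [LieRing L']
    [LieAlgebra k L'] {N : ℕ} (F : L' →ₗ[k] L) (G : L →ₗ[k] L')
    (hF : ∀ x y, F ⁅x, y⁆ = ⁅F x, F y⁆) (hG : ∀ x y, G ⁅x, y⁆ = ⁅G x, G y⁆)
    (hGF : ∀ x, G (F x) = x)
    (E : Sl N k → L →ₗ[k] L) (hE : ∀ X x y, E X ⁅x, y⁆ = ⁅E X x, y⁆ + ⁅x, E X y⁆)
    (E' : Sl N k → L' →ₗ[k] L') (hE' : ∀ X x y, E' X ⁅x, y⁆ = ⁅E' X x, y⁆ + ⁅x, E' X y⁆)
    (hEE : ∀ X x, F (E' X x) = E X (F x)) (p : ℕ) :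
    (∃ f : trivH E' hE' p →ₗ[k] trivH E hE p, Function.Injective f) ∧
      ∃ f : adjH E' hE' p →ₗ[k] adjH E hE p, Function.Injective f := by
  have hinj := HF_inj F hF G hG hGF p
  have hact' := fun X => HF_hact F hF (E' X) (hE' X) (E X) (hE X) (hEE X) p
  constructor
  · refine ⟨{ toFun := fun m => ⟨HF F hF p m.1, fun X => ?_⟩
              map_add' := fun x y => ?_
              map_smul' := fun c x => ?_ }, fun x y h => ?_⟩
    · rw [← hact', m.2 X, map_zero]
    · exact Subtype.ext (map_add _ _ _)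
    · exact Subtype.ext (map_smul _ _ _)
    · exact Subtype.ext (hinj (congrArg Subtype.val h))
  · refine ⟨{ toFun := fun m => ⟨HF F hF p ∘ₗ m.1, fun X Y => ?_⟩
              map_add' := fun x y => ?_
              map_smul' := fun c x => ?_ }, fun x y h => ?_⟩
    · rw [LinearMap.comp_apply, LinearMap.comp_apply, m.2 X Y, hact']
    · exact Subtype.ext (LinearMap.comp_add _ _ _)
    · exact Subtype.ext (LinearMap.comp_smul _ _ _)
    · have h1 : HF F hF p ∘ₗ x.1 = HF F hF p ∘ₗ y.1 := congrArg Subtype.val h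
      exact Subtype.ext (LinearMap.ext fun z => hinj (LinearMap.congr_fun h1 z))

end Pool.Agent.Y275.KI
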