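import Mathlib

/-!
# Project KI (helper80), jobs KI-LIM and KI-RAT (helper275)
-/

set_option autoImplicit false

open scoped BigOperators Topology
open MeasureTheory

namespace Pool.Agent.Y275.KI

theorem lim {K : Type*} [TopologicalSpace K] [CompactSpace K] [MeasurableSpace K] [BorelSpace K]
    (μ : Measure K) [IsFiniteMeasure μ] [μ.IsOpenPosMeasure] (w s : C(K, ℝ))
    (hw : ∀ θ, 0 ≤ w θ) (θ₀ : K) (h0 : 0 < w θ₀) (M ε : ℝ) (hε : 0 < ε) :
    ∃ C₀ : ℝ, ∀ c, C₀ ≤ c → ∀ ψ : C(K, ℝ), (∀ θ, |ψ θ| ≤ M) →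
      ∫ θ, s θ * (Real.exp (-c * s θ - ψ θ) * w θ) ∂μ ≤
        (s θ₀ + ε) * ∫ θ, Real.exp (-c * s θ - ψ θ) * w θ ∂μ := by
  have hint : ∀ f : K → ℝ, Continuous f → Integrable f μ := fun f hf =>
    hf.integrable_of_hasCompactSupport (HasCompactSupport.of_compactSpace f)
  obtain ⟨g, hg⟩ : ∃ g : K → ℝ, g = fun θ => max (s θ₀ + ε / 2 - s θ) 0 := ⟨_, rfl⟩
  have hgc : Continuous g := by
    rw [hg]
    fun_prop
  have hg0 : ∀ θ, 0 ≤ g θ := fun θ => by
    rw [hg]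
    exact le_max_right _ _
  obtain ⟨I₁, hI₁⟩ : ∃ I₁ : ℝ, I₁ = ∫ θ, g θ * w θ ∂μ := ⟨_, rfl⟩
  obtain ⟨I₂, hI₂⟩ : ∃ I₂ : ℝ, I₂ = ∫ θ, w θ ∂μ := ⟨_, rfl⟩
  have hI₁p : 0 < I₁ := by
    rw [hI₁]
    refine Continuous.integral_pos_of_hasCompactSupport_nonneg_nonzero (x := θ₀)
      (by fun_prop) (HasCompactSupport.of_compactSpace _)
      (fun θ => mul_nonneg (hg0 θ) (hw θ)) ?_
    have h1 : g θ₀ = ε / 2 := by
      rw [hg]
      simp only []
      rw [max_eq_left (by linarith)]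
      ring
    rw [h1]
    positivity
  have hI₂p : 0 ≤ I₂ := by
    rw [hI₂]
    exact integral_nonneg hw
  have hB : ∀ θ, s θ - s θ₀ ≤ 2 * ‖s‖ := by
    intro θ
    have h1 := s.norm_coe_le_norm θ
    have h2 := s.norm_coe_le_norm θ₀
    rw [Real.norm_eq_abs] at h1 h2
    have h3 := abs_le.1 h1
    have h4 := abs_le.1 h2
    linarith
  have hBp : 0 ≤ 2 * ‖s‖ := by positivity
  refine ⟨2 / ε * (2 * ‖s‖ * Real.exp (2 * M) * I₂ / I₁), fun c hc ψ hψ => ?_⟩
  have hc0 : 0 ≤ c := le_trans (by positivity) hc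
  have hkey : ∀ θ, Real.exp (-c * (s θ₀ + ε / 2) - M) * (g θ * w θ) -
      2 * ‖s‖ * Real.exp (-c * (s θ₀ + ε) + M) * w θ ≤
      (s θ₀ + ε) * (Real.exp (-c * s θ - ψ θ) * w θ) -
        s θ * (Real.exp (-c * s θ - ψ θ) * w θ) := by
    intro θ
    have hψθ := abs_le.1 (hψ θ)
    have hwθ := hw θ
    have hE := Real.exp_pos (-c * s θ - ψ θ)
    have hE2 := Real.exp_pos (-c * (s θ₀ + ε) + M)
    have hR : (s θ₀ + ε) * (Real.exp (-c * s θ - ψ θ) * w θ) -
        s θ * (Real.exp (-c * s θ - ψ θ) * w θ) =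
        (s θ₀ + ε - s θ) * (Real.exp (-c * s θ - ψ θ) * w θ) := by ring
    rw [hR]
    rcases lt_or_ge (s θ) (s θ₀ + ε / 2) with h1 | h1
    · have h2 : g θ = s θ₀ + ε / 2 - s θ := by
        rw [hg]
        exact max_eq_left (by linarith)
      have h3 : Real.exp (-c * (s θ₀ + ε / 2) - M) ≤ Real.exp (-c * s θ - ψ θ) := by
        apply Real.exp_le_exp.2
        nlinarith
      have h4 : Real.exp (-c * (s θ₀ + ε / 2) - M) * (g θ * w θ) ≤
          Real.exp (-c * s θ - ψ θ) * (g θ * w θ) :=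
        mul_le_mul_of_nonneg_right h3 (mul_nonneg (hg0 θ) hwθ)
      have h5 : Real.exp (-c * s θ - ψ θ) * (g θ * w θ) ≤
          (s θ₀ + ε - s θ) * (Real.exp (-c * s θ - ψ θ) * w θ) := by
        rw [h2]
        have h6 : 0 ≤ Real.exp (-c * s θ - ψ θ) * w θ := by positivity
        nlinarith
      have h6 : 0 ≤ 2 * ‖s‖ * Real.exp (-c * (s θ₀ + ε) + M) * w θ := by positivity
      linarith
    · have h2 : g θ = 0 := by
        rw [hg]
        exact max_eq_right (by linarith)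
      rw [h2, zero_mul, mul_zero, zero_sub]
      rcases le_or_gt (s θ) (s θ₀ + ε) with h3 | h3
      · have h4 : 0 ≤ (s θ₀ + ε - s θ) * (Real.exp (-c * s θ - ψ θ) * w θ) :=
          mul_nonneg (by linarith) (by positivity)
        have h6 : 0 ≤ 2 * ‖s‖ * Real.exp (-c * (s θ₀ + ε) + M) * w θ := by positivity
        linarith
      · have h4 : Real.exp (-c * s θ - ψ θ) ≤ Real.exp (-c * (s θ₀ + ε) + M) := by
          apply Real.exp_le_exp.2
          nlinarith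
        have h5 : (s θ - (s θ₀ + ε)) * (Real.exp (-c * s θ - ψ θ) * w θ) ≤
            2 * ‖s‖ * (Real.exp (-c * (s θ₀ + ε) + M) * w θ) := by
          apply mul_le_mul
          · have := hB θ
            linarith
          · exact mul_le_mul_of_nonneg_right h4 hwθ
          · positivity
          · exact hBp
        nlinarith
  have hi1 : Integrable (fun θ => (s θ₀ + ε) * (Real.exp (-c * s θ - ψ θ) * w θ)) μ :=
    hint _ (by fun_prop)
  have hi2 : Integrable (fun θ => s θ * (Real.exp (-c * s θ - ψ θ) * w θ)) μ :=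
    hint _ (by fun_prop)
  have hi3 : Integrable (fun θ => Real.exp (-c * (s θ₀ + ε / 2) - M) * (g θ * w θ)) μ :=
    hint _ (by fun_prop)
  have hi4 : Integrable (fun θ => 2 * ‖s‖ * Real.exp (-c * (s θ₀ + ε) + M) * w θ) μ :=
    hint _ (by fun_prop)
  have h1 := integral_mono (hi3.sub hi4) (hi1.sub hi2) hkey
  simp only [Pi.sub_apply] at h1
  rw [integral_sub hi3 hi4, integral_sub hi1 hi2, integral_const_mul, integral_const_mul,
    integral_const_mul, ← hI₁, ← hI₂] at h1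
  have h2 : 0 ≤ Real.exp (-c * (s θ₀ + ε / 2) - M) * I₁ -
      2 * ‖s‖ * Real.exp (-c * (s θ₀ + ε) + M) * I₂ := by
    have h3 : Real.exp (-c * (s θ₀ + ε / 2) - M) =
        Real.exp (-c * (s θ₀ + ε) - M) * Real.exp (c * ε / 2) := by
      rw [← Real.exp_add]
      congr 1
      ring
    have h4 : Real.exp (-c * (s θ₀ + ε) + M) =
        Real.exp (-c * (s θ₀ + ε) - M) * Real.exp (2 * M) := by
      rw [← Real.exp_add]
      congr 1
      ring
    have h5 : 2 * ‖s‖ * Real.exp (2 * M) * I₂ / I₁ ≤ Real.exp (c * ε / 2) := by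
      have h6 : 2 * ‖s‖ * Real.exp (2 * M) * I₂ / I₁ ≤ c * ε / 2 := by
        have h7 := mul_le_mul_of_nonneg_right hc (by positivity : 0 ≤ ε / 2)
        calc 2 * ‖s‖ * Real.exp (2 * M) * I₂ / I₁ =
            2 / ε * (2 * ‖s‖ * Real.exp (2 * M) * I₂ / I₁) * (ε / 2) := by
              field_simp
          _ ≤ c * (ε / 2) := h7
          _ = c * ε / 2 := by ring
      have h8 := Real.add_one_le_exp (c * ε / 2)
      linarith
    rw [div_le_iff₀ hI₁p] at h5
    rw [h3, h4]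
    have h6 := Real.exp_pos (-c * (s θ₀ + ε) - M)
    have h7 : Real.exp (-c * (s θ₀ + ε) - M) * Real.exp (c * ε / 2) * I₁ -
        2 * ‖s‖ * (Real.exp (-c * (s θ₀ + ε) - M) * Real.exp (2 * M)) * I₂ =
        Real.exp (-c * (s θ₀ + ε) - M) *
          (Real.exp (c * ε / 2) * I₁ - 2 * ‖s‖ * Real.exp (2 * M) * I₂) := by ring
    rw [h7]
    exact mul_nonneg h6.le (by linarith)
  linarith

theorem rat (P0 P1 : Polynomial ℝ) (hP : P0 ≠ 0) (D X : ℝ → ℝ) (a b M δ : ℝ) (hab : a < b)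
    (hδ : 0 < δ) (hD : ∀ t, t ≠ 1 / 2 → |t - 1 / 2| < δ → 0 < D t)
    (hX : ∀ t, t ≠ 1 / 2 → |t - 1 / 2| < δ → |X t| ≤ M * D t)
    (hl : ∀ t, 1 / 2 - δ < t → t < 1 / 2 → X t ≤ a * D t)
    (hr : ∀ t, 1 / 2 < t → t < 1 / 2 + δ → b * D t ≤ X t)
    (hrel : ∀ t, t ≠ 1 / 2 → |t - 1 / 2| < δ → D t * P1.eval t = X t * P0.eval t) : False := by
  have hbd : ∀ t, t ≠ 1 / 2 → |t - 1 / 2| < δ → |P1.eval t| ≤ M * |P0.eval t| := by
    intro t ht htδ
    have h1 := hD t ht htδ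
    have h2 := hX t ht htδ
    have h3 := hrel t ht htδ
    have h4 : D t * |P1.eval t| = |X t| * |P0.eval t| := by
      rw [← abs_mul, ← h3, abs_mul, abs_of_pos h1]
    have h5 : D t * |P1.eval t| ≤ D t * (M * |P0.eval t|) := by
      rw [h4]
      calc |X t| * |P0.eval t| ≤ M * D t * |P0.eval t| :=
            mul_le_mul_of_nonneg_right h2 (abs_nonneg _)
        _ = D t * (M * |P0.eval t|) := by ring
    exact le_of_mul_le_mul_left h5 h1
  have hnb : ∀ᶠ t in 𝓝[≠] (1 / 2 : ℝ), t ≠ 1 / 2 ∧ |t - 1 / 2| < δ := by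
    have h1 : ∀ᶠ t in 𝓝 (1 / 2 : ℝ), |t - 1 / 2| < δ := by
      have h2 := Metric.ball_mem_nhds (1 / 2 : ℝ) hδ
      filter_upwards [h2] with t ht
      rwa [Metric.mem_ball, Real.dist_eq] at ht
    filter_upwards [self_mem_nhdsWithin, nhdsWithin_le_nhds h1] with t h2 h3
    exact ⟨h2, h3⟩
  have hcont : ∀ Q : Polynomial ℝ, Filter.Tendsto (fun t => Q.eval t) (𝓝 (1 / 2))
      (𝓝 (Q.eval (1 / 2))) := fun Q => Q.continuous.tendsto _
  obtain ⟨Q0, hQ0, hQ0'⟩ := Polynomial.exists_eq_pow_rootMultiplicity_mul_and_not_dvd P0 hP (1 / 2)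
  obtain ⟨m, hm⟩ : ∃ m, m = Polynomial.rootMultiplicity (1 / 2) P0 := ⟨_, rfl⟩
  rw [← hm] at hQ0
  have hQ0e : Q0.eval (1 / 2) ≠ 0 := fun h => hQ0' (Polynomial.dvd_iff_isRoot.2 h)
  have hdvd : (Polynomial.X - Polynomial.C (1 / 2 : ℝ)) ^ m ∣ P1 := by
    by_cases hP1 : P1 = 0
    · rw [hP1]
      exact dvd_zero _
    · obtain ⟨Q1, hQ1, hQ1'⟩ :=
        Polynomial.exists_eq_pow_rootMultiplicity_mul_and_not_dvd P1 hP1 (1 / 2)
      obtain ⟨n, hn⟩ : ∃ n, n = Polynomial.rootMultiplicity (1 / 2) P1 := ⟨_, rfl⟩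
      rw [← hn] at hQ1
      have hQ1e : Q1.eval (1 / 2) ≠ 0 := fun h => hQ1' (Polynomial.dvd_iff_isRoot.2 h)
      rcases le_or_gt m n with h1 | h1
      · rw [hQ1]
        exact Dvd.dvd.mul_right (pow_dvd_pow _ h1) _
      · exfalso
        obtain ⟨k, rfl⟩ : ∃ k, m = n + (k + 1) := ⟨m - n - 1, by omega⟩
        have h2 : ∀ᶠ t in 𝓝[≠] (1 / 2 : ℝ),
            |Q1.eval t| ≤ M * (|t - 1 / 2| ^ (k + 1) * |Q0.eval t|) := by
          filter_upwards [hnb] with t ht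
          have h3 := hbd t ht.1 ht.2
          have h4 : 0 < |t - 1 / 2| := abs_pos.2 (sub_ne_zero.2 ht.1)
          have h5 : 0 < |t - 1 / 2| ^ n := pow_pos h4 n
          have h6 : P1.eval t = (t - 1 / 2) ^ n * Q1.eval t := by
            conv_lhs => rw [hQ1]
            simp
          have h7 : P0.eval t = (t - 1 / 2) ^ (n + (k + 1)) * Q0.eval t := by
            conv_lhs => rw [hQ0]
            simp
          rw [h6, h7, abs_mul, abs_mul, abs_pow, abs_pow] at h3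
          refine le_of_mul_le_mul_left ?_ h5
          calc |t - 1 / 2| ^ n * |Q1.eval t| ≤
                M * (|t - 1 / 2| ^ (n + (k + 1)) * |Q0.eval t|) := h3
            _ = |t - 1 / 2| ^ n * (M * (|t - 1 / 2| ^ (k + 1) * |Q0.eval t|)) := by
                rw [pow_add]
                ring
        have h3 : Filter.Tendsto (fun t : ℝ => M * (|t - 1 / 2| ^ (k + 1) * |Q0.eval t|))
            (𝓝[≠] (1 / 2)) (𝓝 0) := by
          have h4 : Continuous fun t : ℝ => M * (|t - 1 / 2| ^ (k + 1) * |Q0.eval t|) := by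
            have := Q0.continuous
            fun_prop
          have h5 := h4.tendsto (1 / 2)
          have h6 : M * (|(1 / 2 : ℝ) - 1 / 2| ^ (k + 1) * |Q0.eval (1 / 2)|) = 0 := by
            simp
          rw [h6] at h5
          exact h5.mono_left nhdsWithin_le_nhds
        have h4 : Filter.Tendsto (fun t : ℝ => |Q1.eval t|) (𝓝[≠] (1 / 2))
            (𝓝 |Q1.eval (1 / 2)|) := ((hcont Q1).abs).mono_left nhdsWithin_le_nhds
        have h5 := le_of_tendsto_of_tendsto h4 h3 h2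
        exact hQ1e (abs_eq_zero.1 (le_antisymm h5 (abs_nonneg _)))
  obtain ⟨Q, hQ⟩ := hdvd
  have hrel' : ∀ t, t ≠ 1 / 2 → |t - 1 / 2| < δ → D t * Q.eval t = X t * Q0.eval t := by
    intro t ht htδ
    have h1 := hrel t ht htδ
    have h2 : (t - 1 / 2) ^ m ≠ 0 := pow_ne_zero _ (sub_ne_zero.2 ht)
    have h6 : P1.eval t = (t - 1 / 2) ^ m * Q.eval t := by
      conv_lhs => rw [hQ]
      simp
    have h7 : P0.eval t = (t - 1 / 2) ^ m * Q0.eval t := by
      conv_lhs => rw [hQ0]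
      simp
    rw [h6, h7] at h1
    apply mul_left_cancel₀ h2
    linear_combination h1
  have hL : Q.eval (1 / 2) * Q0.eval (1 / 2) ≤ a * (Q0.eval (1 / 2)) ^ 2 := by
    have h1 : ∀ᶠ t in 𝓝[<] (1 / 2 : ℝ), Q.eval t * Q0.eval t ≤ a * (Q0.eval t) ^ 2 := by
      have h2 : ∀ᶠ t in 𝓝[<] (1 / 2 : ℝ), t ∈ Set.Ioo (1 / 2 - δ) (1 / 2) :=
        Ioo_mem_nhdsLT (by linarith)
      filter_upwards [h2] with t ht
      have h3 : |t - 1 / 2| < δ := by
        rw [abs_lt]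
        constructor <;> linarith [ht.1, ht.2]
      have h4 := hrel' t ht.2.ne h3
      have h5 := hD t ht.2.ne h3
      have h6 := hl t ht.1 ht.2
      refine le_of_mul_le_mul_left ?_ h5
      calc D t * (Q.eval t * Q0.eval t) = D t * Q.eval t * Q0.eval t := by ring
        _ = X t * (Q0.eval t) ^ 2 := by
            rw [h4]
            ring
        _ ≤ a * D t * (Q0.eval t) ^ 2 := mul_le_mul_of_nonneg_right h6 (sq_nonneg _)
        _ = D t * (a * (Q0.eval t) ^ 2) := by ring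
    have h2 : Filter.Tendsto (fun t : ℝ => Q.eval t * Q0.eval t) (𝓝[<] (1 / 2))
        (𝓝 (Q.eval (1 / 2) * Q0.eval (1 / 2))) :=
      ((hcont Q).mul (hcont Q0)).mono_left nhdsWithin_le_nhds
    have h3 : Filter.Tendsto (fun t : ℝ => a * (Q0.eval t) ^ 2) (𝓝[<] (1 / 2))
        (𝓝 (a * (Q0.eval (1 / 2)) ^ 2)) :=
      (((hcont Q0).pow 2).const_mul a).mono_left nhdsWithin_le_nhds
    exact le_of_tendsto_of_tendsto h2 h3 h1
  have hR : b * (Q0.eval (1 / 2)) ^ 2 ≤ Q.eval (1 / 2) * Q0.eval (1 / 2) := by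
    have h1 : ∀ᶠ t in 𝓝[>] (1 / 2 : ℝ), b * (Q0.eval t) ^ 2 ≤ Q.eval t * Q0.eval t := by
      have h2 : ∀ᶠ t in 𝓝[>] (1 / 2 : ℝ), t ∈ Set.Ioo (1 / 2) (1 / 2 + δ) :=
        Ioo_mem_nhdsGT (by linarith)
      filter_upwards [h2] with t ht
      have h3 : |t - 1 / 2| < δ := by
        rw [abs_lt]
        constructor <;> linarith [ht.1, ht.2]
      have h4 := hrel' t ht.1.ne' h3
      have h5 := hD t ht.1.ne' h3
      have h6 := hr t ht.1 ht.2
      refine le_of_mul_le_mul_left ?_ h5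
      calc D t * (b * (Q0.eval t) ^ 2) = b * D t * (Q0.eval t) ^ 2 := by ring
        _ ≤ X t * (Q0.eval t) ^ 2 := mul_le_mul_of_nonneg_right h6 (sq_nonneg _)
        _ = D t * Q.eval t * Q0.eval t := by
            rw [h4]
            ring
        _ = D t * (Q.eval t * Q0.eval t) := by ring
    have h2 : Filter.Tendsto (fun t : ℝ => Q.eval t * Q0.eval t) (𝓝[>] (1 / 2))
        (𝓝 (Q.eval (1 / 2) * Q0.eval (1 / 2))) :=
      ((hcont Q).mul (hcont Q0)).mono_left nhdsWithin_le_nhds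
    have h3 : Filter.Tendsto (fun t : ℝ => b * (Q0.eval t) ^ 2) (𝓝[>] (1 / 2))
        (𝓝 (b * (Q0.eval (1 / 2)) ^ 2)) :=
      (((hcont Q0).pow 2).const_mul b).mono_left nhdsWithin_le_nhds
    exact le_of_tendsto_of_tendsto h3 h2 h1
  have h1 : 0 < (Q0.eval (1 / 2)) ^ 2 := by positivity
  nlinarith

end Pool.Agent.Y275.KI
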